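import Pool.Agent.H741.RS.Stm

/-!
# Project RS (MP_9c6456_an), task KCL (helper928): closure properties of kernels
-/

set_option autoImplicit false
open scoped ComplexConjugate

namespace Pool.Agent.H928.RS

open Pool.Agent.H741.RS

theorem ev_add {n : ℕ} (P Q : MvPolynomial (Fin n) ℂ) (z : V n) :
    ev (P + Q) z = ev P z + ev Q z := by
  unfold ev
  rw [map_add]

theorem ev_mul {n : ℕ} (P Q : MvPolynomial (Fin n) ℂ) (z : V n) :
    ev (P * Q) z = ev P z * ev Q z := by
  unfold ev
  rw [map_mul]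

theorem ev_C {n : ℕ} (c : ℂ) (z : V n) : ev (MvPolynomial.C c) z = c := by
  unfold ev
  rw [MvPolynomial.eval_C]

theorem ev_X {n : ℕ} (i : Fin n) (z : V n) : ev (MvPolynomial.X i) z = z i := by
  unfold ev
  rw [MvPolynomial.eval_X]

theorem ker_of {n k l : ℕ} {ι : Type} [Fintype ι] (a b : ι → MvPolynomial (Fin n) ℂ)
    (u : V n → V n → ℂ) (hab : ∀ i, (a i).totalDegree ≤ k ∧ (b i).totalDegree ≤ l)
    (hu : ∀ z w, u z w = ∑ i, ev (a i) z * conj (ev (b i) w)) : Ker k l u := by
  refine ⟨Fintype.card ι, fun i => a ((Fintype.equivFin ι).symm i),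
    fun i => b ((Fintype.equivFin ι).symm i), fun i => hab _, fun z w => ?_⟩
  rw [hu]
  exact (Equiv.sum_comp (Fintype.equivFin ι).symm
    (fun i => ev (a i) z * conj (ev (b i) w))).symm

theorem ker_zero {n k l : ℕ} : Ker k l (fun _ _ : V n => (0 : ℂ)) := by
  refine ker_of (ι := Fin 0) (fun _ => 0) (fun _ => 0) _ (fun i => i.elim0) ?_
  intro z w
  simp

theorem ker_one {n k l : ℕ} : Ker k l (fun _ _ : V n => (1 : ℂ)) := by
  refine ker_of (ι := Fin 1) (fun _ => 1) (fun _ => 1) _ (fun i => ?_) ?_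
  · rw [MvPolynomial.totalDegree_one]
    exact ⟨Nat.zero_le _, Nat.zero_le _⟩
  · intro z w
    simp [ev]

theorem ker_add {n k l : ℕ} {u v : V n → V n → ℂ} (hu : Ker k l u) (hv : Ker k l v) :
    Ker k l (fun z w => u z w + v z w) := by
  obtain ⟨m, a, b, h1, h2⟩ := hu
  obtain ⟨m', a', b', h1', h2'⟩ := hv
  refine ker_of (ι := Fin m ⊕ Fin m') (Sum.elim a a') (Sum.elim b b') _ ?_ ?_
  · rintro (i | i)
    · exact h1 i
    · exact h1' i
  · intro z w
    rw [Fintype.sum_sum_type]
    show u z w + v z w = _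
    rw [h2, h2']
    rfl

theorem ker_smul {n k l : ℕ} (c : ℂ) {u : V n → V n → ℂ} (hu : Ker k l u) :
    Ker k l (fun z w => c * u z w) := by
  obtain ⟨m, a, b, h1, h2⟩ := hu
  refine ker_of (ι := Fin m) (fun i => MvPolynomial.C c * a i) b _ ?_ ?_
  · intro i
    refine ⟨?_, (h1 i).2⟩
    refine (MvPolynomial.totalDegree_mul _ _).trans ?_
    rw [MvPolynomial.totalDegree_C, zero_add]
    exact (h1 i).1
  · intro z w
    show c * u z w = _
    rw [h2, Finset.mul_sum]
    refine Finset.sum_congr rfl fun i _ => ?_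
    rw [ev_mul, ev_C, mul_assoc]

theorem ker_mul {n k l k' l' : ℕ} {u v : V n → V n → ℂ} (hu : Ker k l u) (hv : Ker k' l' v) :
    Ker (k + k') (l + l') (fun z w => u z w * v z w) := by
  obtain ⟨m, a, b, h1, h2⟩ := hu
  obtain ⟨m', a', b', h1', h2'⟩ := hv
  refine ker_of (ι := Fin m × Fin m') (fun x => a x.1 * a' x.2) (fun x => b x.1 * b' x.2) _ ?_ ?_
  · intro x
    exact ⟨(MvPolynomial.totalDegree_mul _ _).trans (Nat.add_le_add (h1 x.1).1 (h1' x.2).1),
      (MvPolynomial.totalDegree_mul _ _).trans (Nat.add_le_add (h1 x.1).2 (h1' x.2).2)⟩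
  · intro z w
    show u z w * v z w = _
    rw [h2, h2', Finset.sum_mul_sum, Fintype.sum_prod_type]
    refine Finset.sum_congr rfl fun i _ => Finset.sum_congr rfl fun j _ => ?_
    rw [ev_mul, ev_mul, map_mul]
    ring

theorem ker_mono {n k l k' l' : ℕ} (hk : k ≤ k') (hl : l ≤ l') {u : V n → V n → ℂ}
    (hu : Ker k l u) : Ker k' l' u := by
  obtain ⟨m, a, b, h1, h2⟩ := hu
  exact ⟨m, a, b, fun i => ⟨(h1 i).1.trans hk, (h1 i).2.trans hl⟩, h2⟩

theorem ker_sum {n k l : ℕ} {ι : Type} (s : Finset ι) (u : ι → V n → V n → ℂ)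
    (h : ∀ i ∈ s, Ker k l (u i)) : Ker k l (fun z w => ∑ i ∈ s, u i z w) := by
  classical
  induction s using Finset.induction_on with
  | empty => simpa using (ker_zero (n := n) (k := k) (l := l))
  | insert i s hi ih =>
    have h1 := ker_add (h i (Finset.mem_insert_self i s))
      (ih fun j hj => h j (Finset.mem_insert_of_mem hj))
    have e : (fun z w : V n => ∑ j ∈ insert i s, u j z w) =
        fun z w => u i z w + ∑ j ∈ s, u j z w := by
      funext z w
      exact Finset.sum_insert hi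
    rw [e]
    exact h1

theorem ker_pow {n : ℕ} {u : V n → V n → ℂ} (hu : Ker 1 1 u) (j : ℕ) :
    Ker j j (fun z w => u z w ^ j) := by
  induction j with
  | zero =>
    have e : (fun z w : V n => u z w ^ 0) = fun _ _ => 1 := by
      funext z w
      exact pow_zero _
    rw [e]
    exact ker_one
  | succ j ih =>
    have e : (fun z w : V n => u z w ^ (j + 1)) = fun z w => u z w ^ j * u z w := by
      funext z w
      exact pow_succ _ _
    rw [e]
    exact ker_mul ih hu

/-- The linear polynomial of a coordinate of a linear map. -/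
noncomputable def lp {n : ℕ} (h : V n →ₗ[ℂ] V n) (i : Fin n) : MvPolynomial (Fin n) ℂ :=
  ∑ j, MvPolynomial.C (h (EuclideanSpace.single j 1) i) * MvPolynomial.X j

theorem lp_deg {n : ℕ} (h : V n →ₗ[ℂ] V n) (i : Fin n) : (lp h i).totalDegree ≤ 1 := by
  unfold lp
  refine MvPolynomial.totalDegree_finsetSum_le fun j _ => ?_
  refine (MvPolynomial.totalDegree_mul _ _).trans ?_
  rw [MvPolynomial.totalDegree_C, MvPolynomial.totalDegree_X]

theorem lp_ev {n : ℕ} (h : V n →ₗ[ℂ] V n) (i : Fin n) (z : V n) : ev (lp h i) z = h z i := by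
  have hz : z = ∑ j, z j • (EuclideanSpace.single j (1 : ℂ) : V n) := by
    ext i
    simp [Finset.sum_apply, Pi.single_apply]
  have h1 : h z = ∑ j, z j • h (EuclideanSpace.single j (1 : ℂ)) := by
    conv_lhs => rw [hz]
    rw [map_sum]
    exact Finset.sum_congr rfl fun j _ => map_smul _ _ _
  rw [h1]
  unfold lp ev
  rw [map_sum]
  simp [mul_comm]

/-- Composition of a polynomial with a linear map. -/
theorem comp_lin {n : ℕ} (h : V n →ₗ[ℂ] V n) (P : MvPolynomial (Fin n) ℂ) :
    ∃ Q : MvPolynomial (Fin n) ℂ, Q.totalDegree ≤ P.totalDegree ∧ ∀ z, ev Q z = ev P (h z) := by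
  refine ⟨∑ d ∈ P.support, MvPolynomial.C (P.coeff d) * ∏ i, lp h i ^ d i, ?_, ?_⟩
  · refine MvPolynomial.totalDegree_finsetSum_le fun d hd => ?_
    refine (MvPolynomial.totalDegree_mul _ _).trans ?_
    rw [MvPolynomial.totalDegree_C, zero_add]
    refine (MvPolynomial.totalDegree_finsetProd _ _).trans ?_
    have h1 : ∀ i ∈ (Finset.univ : Finset (Fin n)), (lp h i ^ d i).totalDegree ≤ d i := by
      intro i _
      refine (MvPolynomial.totalDegree_pow _ _).trans ?_
      have := Nat.mul_le_mul_left (d i) (lp_deg h i)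
      rwa [mul_one] at this
    refine (Finset.sum_le_sum h1).trans ?_
    have h2 := MvPolynomial.le_totalDegree hd
    refine le_trans (le_of_eq ?_) h2
    rw [Finsupp.sum_fintype]
    intro i
    rfl
  · intro z
    have h3 : ev P (h z) = ∑ d ∈ P.support, P.coeff d * ∏ i, (h z i) ^ d i := by
      unfold ev
      exact MvPolynomial.eval_eq' _ _
    rw [h3]
    unfold ev
    rw [map_sum]
    refine Finset.sum_congr rfl fun d _ => ?_
    rw [map_mul, MvPolynomial.eval_C, map_prod]
    congr 1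
    refine Finset.prod_congr rfl fun i _ => ?_
    rw [map_pow]
    congr 1
    exact lp_ev h i z

theorem hp_eq {n : ℕ} (z w : V n) : hp z w = ∑ i, z i * conj (w i) := by
  unfold hp
  rw [PiLp.inner_apply]
  refine Finset.sum_congr rfl fun i _ => ?_
  exact RCLike.inner_apply' (w i) (z i) |>.trans (mul_comm _ _)

theorem ker_hp {n : ℕ} (h : V n →ₗ[ℂ] V n) : Ker 1 1 (fun z w : V n => hp (h z) w) := by
  refine ker_of (ι := Fin n) (lp h) (fun i => MvPolynomial.X i) _ ?_ ?_
  · intro i
    refine ⟨lp_deg h i, ?_⟩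
    rw [MvPolynomial.totalDegree_X]
  · intro z w
    show hp (h z) w = _
    rw [hp_eq]
    refine Finset.sum_congr rfl fun i _ => ?_
    rw [lp_ev, ev_X]

theorem hker_ker {n i j : ℕ} {u : V n → V n → ℂ} (hu : HKer i j u) : Ker i j u := by
  obtain ⟨m, a, b, h1, h2⟩ := hu
  refine ⟨m, a, b, fun t => ⟨?_, ?_⟩, h2⟩
  · exact (h1 t).1.totalDegree_le
  · exact (h1 t).2.totalDegree_le

/-- **KCL.** -/
theorem t_KCL : S_KCL := by
  intro n k l
  refine ⟨?_, ?_, ?_, ?_, ?_, ?_, ?_⟩
  · intro u v hu hv c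
    exact ker_add hu (ker_smul c hv)
  · intro u U hu
    obtain ⟨m, a, b, h1, h2⟩ := hu
    choose Q hQ1 hQ2 using comp_lin (U.toLinearEquiv : V n →ₗ[ℂ] V n)
    refine ⟨m, fun i => Q (a i), fun i => Q (b i), fun i => ⟨(hQ1 _).trans (h1 i).1,
      (hQ1 _).trans (h1 i).2⟩, fun z w => ?_⟩
    show u (U z) (U w) = _
    rw [h2]
    refine Finset.sum_congr rfl fun i _ => ?_
    rw [hQ2, hQ2]
    rfl
  · intro u k' l' hk hl hu
    exact ker_mono hk hl hu
  · intro u v k' l' hu hv
    exact ker_mul hu hv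
  · intro h
    exact ker_hp (h : V n →ₗ[ℂ] V n)
  · have h1 : Ker 1 1 (fun z w : V n => hp z w) := ker_hp (LinearMap.id : V n →ₗ[ℂ] V n)
    have h2 := ker_sum (n := n) (k := k) (l := k) (Finset.range (k + 1))
      (fun j z w => (1 / ((j : ℂ) + 2)) * hp z w ^ j) (fun j hj => by
        have h3 := ker_smul (1 / ((j : ℂ) + 2)) (ker_pow h1 j)
        have h4 : j ≤ k := by
          rw [Finset.mem_range] at hj
          omega
        exact ker_mono h4 h4 h3)
    exact h2
  · intro u hu
    obtain ⟨v, h1, _, _, _, h2⟩ := hu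
    have h3 := ker_sum (n := n) (k := k) (l := k) (Finset.range (k + 1))
      (fun i z w => ∑ j ∈ Finset.range (k + 1), v i j z w) (fun i hi => by
        refine ker_sum (Finset.range (k + 1)) (fun j => v i j) (fun j hj => ?_)
        rw [Finset.mem_range] at hi hj
        exact ker_mono (by omega) (by omega) (hker_ker (h1 i j)))
    have e : u = fun z w => ∑ i ∈ Finset.range (k + 1), ∑ j ∈ Finset.range (k + 1), v i j z w := by
      funext z w
      exact h2 z w
    rw [e]
    exact h3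

end Pool.Agent.H928.RS
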